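import Pool.Agent.H1.CA.TarP

/-!
# PL: lower bounds on a tail

`f` is the value of a name `n`. The set `W j` consists of the conditions below some `q` which
force that the `j`-th value of `f` is `q`; then the reduction of dense sets is applied to `W`.
-/

set_option linter.unusedVariables false

open Ordinal Order Set
open scoped ZFSet

namespace CAA

open SF

/-- the set of the conditions below some `q` which force (in the sense of `O`) the value `q` -/
noncomputable def plW (O : (V → Prop) → (ℕ → V) → V) (M : V → Prop) (J c r n : V) : V :=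
  resS J fun j => c.sep fun p => ∃ q ∈ c,
    p ∈ O M (cons c (cons r (cons n (cons j (cons q fun _ => c))))) ∧ ZFSet.pair p q ∈ r

theorem tm_plW {O : (V → Prop) → (ℕ → V) → V} (hO : Tm ZFm O) :
    Tm ZFm (fun M v => plW O M (v 0) (v 1) (v 2) (v 3)) := by
  let ρ : ℕ → ℕ := fun i => match i with
    | 0 => 4
    | 1 => 5
    | 2 => 6
    | 3 => 2
    | 4 => 0
    | _ => 4
  have h1 : Tm ZFm (fun M v => O M (fun i => v (ρ i))) := hO.rn ρ
  have h2 : Dfb ZFm (fun M v => v 1 ∈ O M (fun i => v (ρ i)) ∧ ZFSet.pair (v 1) (v 0) ∈ v 5) :=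
    (Dfb.mem (Tm.var 1) h1).and (Dfb.pairMem (Tm.var 1) (Tm.var 0) (Tm.var 5))
  have h3 := Dfb.bex ktr_zfm (Tm.var 3) h2
  have h4 := Tm.sep h3 (Tm.var 2)
  have h5 := Tm.image (Tm.var 0) (Tm.pair (Tm.var 0) h4)
  refine h5.congr fun M k v hv => ?_
  unfold plW resS
  congr 1
  funext j
  congr 1
  congr 1
  funext p
  apply propext
  refine exists_congr fun q => and_congr_right fun _ => and_congr_left fun _ => ?_
  have e : (fun i => cons q (cons p (cons j v)) (ρ i)) =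
      cons (v 1) (cons (v 2) (cons (v 3) (cons j (cons q fun _ => v 1)))) := by
    funext i
    match i with
    | 0 => rfl
    | 1 => rfl
    | 2 => rfl
    | 3 => rfl
    | 4 => rfl
    | i + 5 => rfl
  rw [e]
  exact Iff.rfl

theorem pf_PL (hPB : T_PB) (hPF : T_PF) (hPI : T_PI) (hDS : T_DS) (hFM : SF.T_FM) : T_PL := by
  intro D hD G hG i hi J hJ hJs f hf hfG
  obtain ⟨n, hn, rfl⟩ := hf
  obtain ⟨hpo, hc, hr, -, hP, -, -, -, hLe, -⟩ := hPF D hD
  have kM : ZFm D.M := hD.grd.zfc.toZFm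
  have hcnt : {x | D.M x}.Countable := hD.grd.ctb
  -- the relations
  obtain ⟨O1, hO1, hO1'⟩ := hDS (fun _ w => ∀ j ∈ w 2, app (val (w 0) (w 1)) j ∈ w 0)
    ((Dfb.ball (R := fun _ w => app (val (w 1) (w 2)) (w 0) ∈ w 1) ktr_zfm (Tm.var 2)
      (Dfb.mem (Tm.app (Tm.val (Tm.var 1) (Tm.var 2)) (Tm.var 0)) (Tm.var 1))).congr
        fun M k w hw => Iff.rfl)
  obtain ⟨O2, hO2, hO2'⟩ := hDS (fun _ w => app (val (w 0) (w 1)) (w 2) = w 3)
    (Dfb.eq (Tm.app (Tm.val (Tm.var 0) (Tm.var 1)) (Tm.var 2)) (Tm.var 3))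
  -- the condition that forces the hypothesis
  have hv1 : In D.M (cons n (cons J fun _ => D.c)) :=
    In.cons (v := cons J fun _ => D.c) (In.cons (v := fun _ => D.c) (fun _ => hc) hJ) hn
  obtain ⟨p0, hp0, hp0O⟩ := ((hO1' D.M D.c D.r _ kM hc hr hpo hv1).2.1 G hG).1 hfG
  -- the family of open dense sets
  have hW : D.M (plW O2 D.M J D.c D.r n) :=
    (tm_plW hO2).1 D.M kM (cons J (cons D.c (cons D.r (cons n fun _ => D.c))))
      (In.cons (v := cons D.c (cons D.r (cons n fun _ => D.c)))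
        (In.cons (v := cons D.r (cons n fun _ => D.c))
          (In.cons (v := cons n fun _ => D.c) (In.cons (v := fun _ => D.c) (fun _ => hc) hn) hr)
          hc) hJ)
  have hWj : ∀ j ∈ J, ∀ p, p ∈ app (plW O2 D.M J D.c D.r n) j ↔ p ∈ D.c ∧ ∃ q ∈ D.c,
      p ∈ O2 D.M (cons D.c (cons D.r (cons n (cons j (cons q fun _ => D.c))))) ∧
        ZFSet.pair p q ∈ D.r := by
    intro j hj p
    unfold plW
    rw [app_resS hj, ZFSet.mem_sep]
  have hv2 : ∀ j ∈ J, ∀ q ∈ D.c, In D.M (cons n (cons j (cons q fun _ => D.c))) := by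
    intro j hj q hq
    exact In.cons (v := cons j (cons q fun _ => D.c)) (In.cons (v := cons q fun _ => D.c)
      (In.cons (v := fun _ => D.c) (fun _ => hc) (kM.trans _ hc _ hq)) (kM.trans _ hJ _ hj)) hn
  have hden : D.Den p0 J (plW O2 D.M J D.c D.r n) := by
    intro j hj
    refine ⟨fun p hp => ((hWj j hj p).1 hp).1, ?_, ?_⟩
    · intro p hp s hs hsp
      obtain ⟨hpc, q, hq, hpq, hpq'⟩ := (hWj j hj p).1 hp
      have hsp' : ZFSet.pair s p ∈ D.r := (hLe s p).2 ⟨hs, hpc, hsp⟩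
      refine (hWj j hj s).2 ⟨hs, q, hq, ?_, hpo.trans _ _ _ hsp' hpq'⟩
      exact (hO2' D.M D.c D.r _ kM hc hr hpo (hv2 j hj q hq)).1.2.1 p hpq s hsp'
    · intro p hp hpp0
      have hpp0' : ZFSet.pair p p0 ∈ D.r := (hLe p p0).2 ⟨hp, hG.1.sub hp0, hpp0⟩
      obtain ⟨G', hG', hpG'⟩ := hFM D.M D.c D.r p hcnt hpo hp
      have hp0G' : p0 ∈ G' := hG'.1.up p hpG' p0 hpp0'
      have h1 := ((hO1' D.M D.c D.r _ kM hc hr hpo hv1).2.1 G' hG').2 ⟨p0, hp0G', hp0O⟩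
      have h2 : app (val G' n) j ∈ G' := h1 j hj
      have h3 : app (val G' n) j ∈ D.c := hG'.1.sub h2
      obtain ⟨p', hp', hp'O⟩ := ((hO2' D.M D.c D.r _ kM hc hr hpo
        (hv2 j hj _ h3)).2.1 G' hG').1 rfl
      obtain ⟨s, hs, hs1, hs2⟩ := hG'.1.dir p hpG' p' hp'
      obtain ⟨t, ht, ht1, ht2⟩ := hG'.1.dir s hs _ h2
      have htc : t ∈ D.c := hG'.1.sub ht
      refine ⟨t, (hWj j hj t).2 ⟨htc, _, h3, ?_, ht2⟩, ((hLe t p).1
        (hpo.trans _ _ _ ht1 hs1)).2.2⟩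
      exact (hO2' D.M D.c D.r _ kM hc hr hpo (hv2 j hj _ h3)).1.2.1 p' hp'O t
        (hpo.trans _ _ _ ht1 hs2)
  obtain ⟨v, hvG, hvp0, hv⟩ := hPI D hD G hG i hi p0 hp0 J _ hJ hJs hW hden
  refine ⟨v, hvG, fun j hj k hk hik => ?_⟩
  obtain ⟨u, huG, hui, hcG, hcW⟩ := hv j hj
  obtain ⟨hcc, q, hq, hq1, hq2⟩ := (hWj j hj _).1 hcW
  have h4 : app (val G n) j = q :=
    ((hO2' D.M D.c D.r _ kM hc hr hpo (hv2 j hj q hq)).2.1 G hG).2 ⟨_, hcG, hq1⟩
  have h5 := ((hLe _ q).1 hq2).2.2 k hk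
  have h6 : k.toZFSet ∉ i.toZFSet := by
    rw [Ordinal.toZFSet_mem_toZFSet_iff]
    exact not_lt.2 hik
  rw [((hPB.2.1 u i.toZFSet v (hP u (hG.1.sub huG)).1 (hP v (hG.1.sub hvG)).1).2 _).2 h6] at h5
  rw [h4]
  exact h5

end CAA
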